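import Pool.Agent.R142.Arr
import Pool.Agent.R142.MagHom

/-!
# Magnitude homology of an arrangement is finitely generated
-/

set_option autoImplicit false

namespace Pool.Agent.P8H39.MH

open Pool.Agent.R142.Arr Pool.Agent.R142.MagHom

theorem exists_form {d : ℕ} (H : Submodule ℝ (Fin d → ℝ)) (h : Module.finrank ℝ H + 1 = d) :
    ∃ f : (Fin d → ℝ) →ₗ[ℝ] ℝ, LinearMap.ker f = H := by
  have h1 : Module.finrank ℝ ((Fin d → ℝ) ⧸ H) = 1 := by
    have := H.finrank_quotient_add_finrank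
    rw [Module.finrank_fin_fun] at this
    omega
  have h2 : Module.finrank ℝ ((Fin d → ℝ) ⧸ H) = Module.finrank ℝ ℝ := by
    rw [h1, Module.finrank_self]
  let e : ((Fin d → ℝ) ⧸ H) ≃ₗ[ℝ] ℝ := LinearEquiv.ofFinrankEq _ _ h2
  refine ⟨e.toLinearMap ∘ₗ H.mkQ, ?_⟩
  rw [LinearMap.ker_comp, LinearEquiv.ker, Submodule.comap_bot, Submodule.ker_mkQ]

theorem finite_chamber {d : ℕ} {A : Finset (Submodule ℝ (Fin d → ℝ))} (hA : IsArrangement A) :
    Finite (Chamber A) := by
  classical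
  have h1 : ∀ H : {H // H ∈ A}, ∃ f : (Fin d → ℝ) →ₗ[ℝ] ℝ, LinearMap.ker f = H.1 := fun H =>
    exists_form H.1 (hA H.1 H.2)
  choose f hf using h1
  have h2 : arr f = A := by
    ext H
    rw [mem_arr]
    constructor
    · rintro ⟨i, rfl⟩
      rw [hf]
      exact i.2
    · intro h
      exact ⟨⟨H, h⟩, hf ⟨H, h⟩⟩
  rw [← h2]
  exact Finite.of_injective _ (sgC_injective f)

theorem finite_MH {d : ℕ} {A : Finset (Submodule ℝ (Fin d → ℝ))} (hA : IsArrangement A)
    (k l : ℕ) : Module.Finite ℤ (MH (topeGraph A) k l) := by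
  have := finite_chamber hA
  infer_instance

theorem free_MH {d : ℕ} {A : Finset (Submodule ℝ (Fin d → ℝ))} (hA : IsArrangement A)
    (k l : ℕ) (h : ∀ (m : ℤ) (x : MH (topeGraph A) k l), m ≠ 0 → m • x = 0 → x = 0) :
    Module.Free ℤ (MH (topeGraph A) k l) := by
  have h1 := finite_MH hA k l
  have h2 : Module.IsTorsionFree ℤ (MH (topeGraph A) k l) := by
    constructor
    intro m hm x y hxy
    have h3 : m • (x - y) = 0 := by
      rw [smul_sub]
      exact sub_eq_zero.2 hxy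
    exact sub_eq_zero.1 (h m _ hm.ne_zero h3)
  exact Module.free_of_finite_type_torsion_free'

end Pool.Agent.P8H39.MH
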