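import Mathlib

/-!
# Relative complexes spanned by families of lists

The simplicial boundary of a list is the alternating sum of the lists obtained by deleting one
entry. A convex family `S` of lists spans a complex: the faces outside `S` are dropped.
`Ex M S k` says that this complex, with coefficients in the abelian group `M`, is exact in
degree `k` (the degree is the length).
-/

set_option autoImplicit false

namespace Pool.Agent.P8H39.MH

open Finsupp

/-- The boundary of a list: `D (a :: l) = l - a :: D l`. -/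
noncomputable def D {α : Type} : List α → (List α →₀ ℤ)
  | [] => 0
  | a :: l => single l 1 - (D l).mapDomain (List.cons a)

section basic

variable {α : Type}

theorem D_nil : D ([] : List α) = 0 := rfl

theorem D_cons (a : α) (l : List α) : D (a :: l) = single l 1 - (D l).mapDomain (List.cons a) := rfl

open Classical in
theorem D_cons_nil (a : α) (l : List α) : D (a :: l) [] = if l = [] then 1 else 0 := by
  rw [D_cons, Finsupp.sub_apply, Finsupp.single_apply, Finsupp.mapDomain_of_notMem_range, sub_zero]
  rintro ⟨x, hx⟩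
  exact List.cons_ne_nil _ _ hx

open Classical in
theorem D_cons_cons (a b : α) (l m : List α) :
    D (a :: l) (b :: m) = (if l = b :: m then 1 else 0) - (if a = b then D l m else 0) := by
  rw [D_cons, Finsupp.sub_apply, Finsupp.single_apply]
  congr 1
  split_ifs with h
  · subst h
    rw [Finsupp.mapDomain_apply (List.cons_injective)]
  · rw [Finsupp.mapDomain_of_notMem_range]
    rintro ⟨x, hx⟩
    rw [List.cons.injEq] at hx
    exact h hx.1

theorem D_ne_zero {l m : List α} (h : D l m ≠ 0) : m.Sublist l ∧ m.length + 1 = l.length := by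
  classical
  induction l generalizing m with
  | nil => simp [D_nil] at h
  | cons a l ih =>
    cases m with
    | nil =>
      rw [D_cons_nil] at h
      have : l = [] := by
        by_contra h'
        simp [h'] at h
      subst this
      simp
    | cons b m =>
      rw [D_cons_cons] at h
      by_cases h1 : l = b :: m
      · rw [h1]
        simp
      · rw [if_neg h1, zero_sub, neg_ne_zero] at h
        by_cases h2 : a = b
        · subst h2
          rw [if_pos rfl] at h
          obtain ⟨h3, h4⟩ := ih h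
          exact ⟨h3.cons_cons a, by simp [h4]⟩
        · rw [if_neg h2] at h
          exact absurd rfl h

theorem D_length {l m : List α} (h : m.length + 1 ≠ l.length) : D l m = 0 := by
  by_contra h'
  exact h (D_ne_zero h').2

theorem D_sublist {l m : List α} (h : ¬ m.Sublist l) : D l m = 0 := by
  by_contra h'
  exact h (D_ne_zero h').1

/-- The linear extension of `D` with integer coefficients. -/
noncomputable def Dz : (List α →₀ ℤ) →ₗ[ℤ] (List α →₀ ℤ) := Finsupp.linearCombination ℤ D

theorem Dz_single (l : List α) (n : ℤ) : Dz (single l n) = n • D l := by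
  rw [Dz, Finsupp.linearCombination_single]

theorem Dz_cons (a : α) (c : List α →₀ ℤ) :
    Dz (c.mapDomain (List.cons a)) = c - (Dz c).mapDomain (List.cons a) := by
  induction c using Finsupp.induction_linear with
  | zero => simp
  | add f g hf hg => rw [Finsupp.mapDomain_add, map_add, hf, hg, map_add, Finsupp.mapDomain_add]; abel
  | single l n =>
    rw [Finsupp.mapDomain_single, Dz_single, Dz_single, D_cons, smul_sub, Finsupp.mapDomain_smul,
      Finsupp.smul_single, smul_eq_mul, mul_one]

theorem Dz_D (l : List α) : Dz (D l) = 0 := by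
  induction l with
  | nil => simp [D_nil]
  | cons a l ih => rw [D_cons, map_sub, Dz_single, one_smul, Dz_cons, ih]; simp

end basic

section chains

variable {α : Type} {M : Type} [AddCommGroup M]

/-- The boundary of a chain with coefficients in `M`. -/
noncomputable def bd : (List α →₀ M) →+ (List α →₀ M) :=
  Finsupp.liftAddHom fun l =>
    { toFun := fun a => (D l).mapRange (fun n : ℤ => n • a) (zero_smul ℤ a)
      map_zero' := by
        ext m
        simp
      map_add' := fun a b => by
        ext m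
        simp }

theorem bd_single (l : List α) (a : M) (m : List α) : bd (single l a) m = D l m • a := by
  simp [bd]

theorem bd_apply (c : List α →₀ M) (m : List α) : bd c m = c.sum fun l a => D l m • a := by
  induction c using Finsupp.induction_linear with
  | zero => simp
  | add f g hf hg =>
    rw [map_add, Finsupp.add_apply, hf, hg, Finsupp.sum_add_index']
    · intro l
      simp
    · intro l a b
      simp
  | single l a =>
    rw [bd_single, Finsupp.sum_single_index]
    simp

theorem bd_bd (c : List α →₀ M) : bd (bd c) = 0 := by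
  induction c using Finsupp.induction_linear with
  | zero => simp
  | add f g hf hg => rw [map_add, map_add, hf, hg, add_zero]
  | single l a =>
    ext y
    rw [bd_apply, Finsupp.zero_apply]
    have h : (bd (single l a) : List α →₀ M) = (D l).mapRange (fun n : ℤ => n • a) (zero_smul ℤ a) := by
      ext m
      rw [bd_single]
      simp
    rw [h, Finsupp.sum_mapRange_index (by simp)]
    have h2 := DFunLike.congr_fun (Dz_D l) y
    rw [Dz, Finsupp.linearCombination_apply, Finsupp.sum_apply, Finsupp.zero_apply] at h2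
    have h3 : ((D l).sum fun m n => D m y • n • a) = ((D l).sum fun m n => (n • D m) y) • a := by
      rw [Finsupp.sum, Finsupp.sum, Finset.sum_smul]
      refine Finset.sum_congr rfl fun m _ => ?_
      rw [Finsupp.smul_apply, smul_eq_mul, smul_smul, mul_comm]
    rw [h3, h2, zero_smul]

/-- `c` is a chain of degree `k` of the family `S`. -/
def IsC (S : Set (List α)) (k : ℕ) (c : List α →₀ M) : Prop := ∀ l, c l ≠ 0 → l ∈ S ∧ l.length = k

variable (M) in
/-- The complex of the family `S` with coefficients in `M` is exact in degree `k`. -/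
def Ex (S : Set (List α)) (k : ℕ) : Prop :=
  ∀ c : List α →₀ M, IsC S k c → (∀ m ∈ S, bd c m = 0) →
    ∃ w : List α →₀ M, IsC S (k + 1) w ∧ ∀ l ∈ S, bd w l = c l

/-- Convexity: what lies between two members belongs to the family. -/
def Conv (S : Set (List α)) : Prop :=
  ∀ l₁ l₂ l₃ : List α, l₁ ∈ S → l₃ ∈ S → l₁.Sublist l₂ → l₂.Sublist l₃ → l₂ ∈ S

theorem IsC.add {S : Set (List α)} {k : ℕ} {c c' : List α →₀ M} (h : IsC S k c) (h' : IsC S k c') :
    IsC S k (c + c') := by
  intro l hl
  by_cases h1 : c l = 0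
  · apply h' l
    intro h2
    apply hl
    rw [Finsupp.add_apply, h1, h2, add_zero]
  · exact h l h1

theorem IsC.neg {S : Set (List α)} {k : ℕ} {c : List α →₀ M} (h : IsC S k c) : IsC S k (-c) := by
  intro l hl
  apply h l
  intro h1
  apply hl
  rw [Finsupp.neg_apply, h1, neg_zero]

theorem IsC.sub {S : Set (List α)} {k : ℕ} {c c' : List α →₀ M} (h : IsC S k c) (h' : IsC S k c') :
    IsC S k (c - c') := by
  rw [sub_eq_add_neg]
  exact h.add h'.neg

theorem IsC.zero (S : Set (List α)) (k : ℕ) : IsC S k (0 : List α →₀ M) := by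
  intro l hl
  exact absurd rfl hl

theorem IsC.mono {S T : Set (List α)} (hST : S ⊆ T) {k : ℕ} {c : List α →₀ M} (h : IsC S k c) :
    IsC T k c := fun l hl => ⟨hST (h l hl).1, (h l hl).2⟩

/-- A boundary coefficient is nonzero only at a face of a member of the support. -/
theorem bd_ne_zero {c : List α →₀ M} {m : List α} (h : bd c m ≠ 0) :
    ∃ l, c l ≠ 0 ∧ D l m ≠ 0 := by
  rw [bd_apply, Finsupp.sum] at h
  obtain ⟨l, hl, h1⟩ := Finset.exists_ne_zero_of_sum_ne_zero h
  refine ⟨l, Finsupp.mem_support_iff.1 hl, ?_⟩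
  intro h2
  apply h1
  rw [h2, zero_smul]

open Classical in
/-- The part of the chain `c` in the family `S`. -/
noncomputable def rs (S : Set (List α)) (c : List α →₀ M) : List α →₀ M := c.filter (· ∈ S)

theorem rs_mem {S : Set (List α)} {c : List α →₀ M} {l : List α} (h : l ∈ S) : rs S c l = c l := by
  classical
  rw [rs, Finsupp.filter_apply_pos _ _ h]

theorem rs_not {S : Set (List α)} {c : List α →₀ M} {l : List α} (h : l ∉ S) : rs S c l = 0 := by
  classical
  rw [rs, Finsupp.filter_apply_neg _ _ h]

theorem isC_bd {S : Set (List α)} {k : ℕ} {c : List α →₀ M} (h : IsC S (k + 1) c) :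
    IsC S k (rs S (bd c)) := by
  intro l hl
  by_cases hS : l ∈ S
  · refine ⟨hS, ?_⟩
    rw [rs_mem hS] at hl
    obtain ⟨m, h1, h2⟩ := bd_ne_zero hl
    have := (D_ne_zero h2).2
    have := (h m h1).2
    omega
  · exact absurd (rs_not hS) hl

theorem isC_rs {S T : Set (List α)} {k : ℕ} {c : List α →₀ M} (h : IsC S k c) (_hT : T ⊆ S) :
    IsC T k (rs T c) := by
  intro l hl
  by_cases hS : l ∈ T
  · rw [rs_mem hS] at hl
    exact ⟨hS, (h l hl).2⟩
  · exact absurd (rs_not hS) hl

/-- The relative boundary squares to zero on a convex family. -/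
theorem bd_rs_bd {S : Set (List α)} (hS : Conv S) {k : ℕ} {c : List α →₀ M} (h : IsC S k c)
    {y : List α} (hy : y ∈ S) : bd (rs S (bd c)) y = 0 := by
  have h1 : bd c = rs S (bd c) + rs Sᶜ (bd c) := by
    ext l
    rw [Finsupp.add_apply]
    by_cases hl : l ∈ S
    · rw [rs_mem hl, rs_not (by simpa using hl), add_zero]
    · rw [rs_not hl, rs_mem (by simpa using hl), zero_add]
  have h2 := DFunLike.congr_fun (bd_bd c) y
  rw [h1, map_add, Finsupp.add_apply, Finsupp.zero_apply] at h2
  have h3 : bd (rs Sᶜ (bd c)) y = 0 := by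
    by_contra h4
    obtain ⟨x, hx1, hx2⟩ := bd_ne_zero h4
    have hx3 : x ∉ S := by
      intro hx
      exact hx1 (rs_not (by simpa using hx))
    rw [rs_mem (by simpa using hx3)] at hx1
    obtain ⟨z, hz1, hz2⟩ := bd_ne_zero hx1
    exact hx3 (hS y x z hy (h z hz1).1 (D_ne_zero hx2).1 (D_ne_zero hz2).1)
  rw [h3, add_zero] at h2
  exact h2

/-- Two chains with the same part relevant for `S`. -/
theorem bd_rs {A : Set (List α)} {c : List α →₀ M} {y : List α}
    (h : ∀ l, c l ≠ 0 → l ∉ A → D l y = 0) : bd (rs A c) y = bd c y := by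
  have h1 : c = rs A c + rs Aᶜ c := by
    ext l
    rw [Finsupp.add_apply]
    by_cases hl : l ∈ A
    · rw [rs_mem hl, rs_not (by simpa using hl), add_zero]
    · rw [rs_not hl, rs_mem (by simpa using hl), zero_add]
  have h3 : bd (rs Aᶜ c) y = 0 := by
    by_contra h4
    obtain ⟨x, hx1, hx2⟩ := bd_ne_zero h4
    have hx3 : x ∉ A := by
      intro hx
      exact hx1 (rs_not (by simpa using hx))
    rw [rs_mem (by simpa using hx3)] at hx1
    exact hx2 (h x hx1 hx3)
  conv_rhs => rw [h1, map_add, Finsupp.add_apply, h3, add_zero]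

/-- `S` is split into the subcomplex `A` and the quotient `B`. -/
structure Split (S A B : Set (List α)) : Prop where
  conv : Conv S
  eq : S = A ∪ B
  disj : ∀ l ∈ A, l ∉ B
  face : ∀ a ∈ A, ∀ b ∈ B, D a b = 0

theorem L1 {S A B : Set (List α)} (h : Split S A B) {k : ℕ} (hA : Ex M A k) (hB : Ex M B k) :
    Ex M S k := by
  intro c hc hz
  have hAS : A ⊆ S := by rw [h.eq]; exact Set.subset_union_left
  have hBS : B ⊆ S := by rw [h.eq]; exact Set.subset_union_right
  have hmem : ∀ l, l ∈ S → l ∉ A → l ∈ B := by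
    intro l hl hl'
    rw [h.eq] at hl
    exact hl.resolve_left hl'
  have hmem' : ∀ l, l ∈ S → l ∉ B → l ∈ A := by
    intro l hl hl'
    rw [h.eq] at hl
    exact hl.resolve_right hl'
  -- the part in `B`
  obtain ⟨wB, hwB, hwB2⟩ := hB (rs B c) (isC_rs hc hBS) (by
    intro m hm
    rw [bd_rs]
    · exact hz m (hBS hm)
    · intro l hl hlB
      exact h.face l (hmem' l (hc l hl).1 hlB) m hm)
  -- the remaining chain lies in `A`
  let c' : List α →₀ M := c - rs S (bd wB)
  have hc'S : IsC S k c' := hc.sub (isC_bd (hwB.mono hBS))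
  have hc'B : ∀ l ∈ B, c' l = 0 := by
    intro l hl
    rw [Finsupp.sub_apply, rs_mem (hBS hl), hwB2 l hl, rs_mem hl, sub_self]
  have hc'A : IsC A k c' := by
    intro l hl
    have h1 := hc'S l hl
    exact ⟨hmem' l h1.1 fun hlB => hl (hc'B l hlB), h1.2⟩
  obtain ⟨wA, hwA, hwA2⟩ := hA c' hc'A (by
    intro m hm
    rw [map_sub, Finsupp.sub_apply, hz m (hAS hm), bd_rs_bd h.conv (hwB.mono hBS) (hAS hm), sub_zero])
  refine ⟨wA + wB, (hwA.mono hAS).add (hwB.mono hBS), ?_⟩
  intro l hl
  rw [map_add, Finsupp.add_apply]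
  by_cases hlA : l ∈ A
  · rw [hwA2 l hlA, Finsupp.sub_apply, rs_mem hl, sub_add_cancel]
  · have hlB := hmem l hl hlA
    have h1 : bd wA l = 0 := by
      by_contra h2
      obtain ⟨x, hx1, hx2⟩ := bd_ne_zero h2
      exact hx2 (h.face x (hwA x hx1).1 l hlB)
    rw [h1, zero_add, hwB2 l hlB, rs_mem hlB]

theorem L2 {S A B : Set (List α)} (h : Split S A B) {k : ℕ} (hS : Ex M S k)
    (hB : Ex M B (k + 1)) : Ex M A k := by
  intro c hc hz
  have hAS : A ⊆ S := by rw [h.eq]; exact Set.subset_union_left
  have hBS : B ⊆ S := by rw [h.eq]; exact Set.subset_union_right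
  have hmem' : ∀ l, l ∈ S → l ∉ B → l ∈ A := by
    intro l hl hl'
    rw [h.eq] at hl
    exact hl.resolve_right hl'
  obtain ⟨w, hw, hw2⟩ := hS c (hc.mono hAS) (by
    intro m hm
    by_cases hmA : m ∈ A
    · exact hz m hmA
    · have hmB : m ∈ B := by
        rw [h.eq] at hm
        exact hm.resolve_left hmA
      by_contra h2
      obtain ⟨x, hx1, hx2⟩ := bd_ne_zero h2
      exact hx2 (h.face x (hc x hx1).1 m hmB))
  obtain ⟨v, hv, hv2⟩ := hB (rs B w) (isC_rs hw hBS) (by
    intro m hm
    rw [bd_rs]
    · rw [hw2 m (hBS hm)]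
      by_contra h2
      exact h.disj m (hc m h2).1 hm
    · intro l hl hlB
      exact h.face l (hmem' l (hw l hl).1 hlB) m hm)
  let w' : List α →₀ M := w - rs S (bd v)
  have hw'S : IsC S (k + 1) w' := hw.sub (isC_bd (hv.mono hBS))
  refine ⟨w', ?_, ?_⟩
  · intro l hl
    have h1 := hw'S l hl
    refine ⟨hmem' l h1.1 fun hlB => hl ?_, h1.2⟩
    rw [Finsupp.sub_apply, rs_mem (hBS hlB), hv2 l hlB, rs_mem hlB, sub_self]
  · intro l hl
    rw [map_sub, Finsupp.sub_apply, hw2 l (hAS hl), bd_rs_bd h.conv (hv.mono hBS) (hAS hl), sub_zero]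

/-- A family that is the disjoint union of pieces without faces across the pieces. -/
theorem pieces {P : Type} {S : Set (List α)} (f : List α → P)
    (hf : ∀ l ∈ S, ∀ m ∈ S, D l m ≠ 0 → f m = f l) {k : ℕ}
    (h : ∀ p, Ex M {l | l ∈ S ∧ f l = p} k) : Ex M S k := by
  classical
  intro c hc hz
  have h1 : ∀ p, ∃ w : List α →₀ M, IsC {l | l ∈ S ∧ f l = p} (k + 1) w ∧
      ∀ l ∈ {l | l ∈ S ∧ f l = p}, bd w l = rs {l | l ∈ S ∧ f l = p} c l := by
    intro p
    refine h p _ (isC_rs hc fun l hl => hl.1) ?_
    intro m hm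
    rw [bd_rs]
    · exact hz m hm.1
    · intro l hl hl2
      by_contra h3
      apply hl2
      refine ⟨(hc l hl).1, ?_⟩
      rw [← hf l (hc l hl).1 m hm.1 h3]
      exact hm.2
  choose w hw hw2 using h1
  refine ⟨∑ p ∈ c.support.image f, w p, ?_, ?_⟩
  · intro l hl
    rw [Finsupp.finsetSum_apply] at hl
    obtain ⟨p, -, hp⟩ := Finset.exists_ne_zero_of_sum_ne_zero hl
    exact ⟨(hw p l hp).1.1, (hw p l hp).2⟩
  · intro l hl
    rw [map_sum, Finsupp.finsetSum_apply]
    have h3 : ∀ p, p ≠ f l → bd (w p) l = 0 := by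
      intro p hp
      by_contra h4
      obtain ⟨x, hx1, hx2⟩ := bd_ne_zero h4
      have h5 := (hw p x hx1).1
      exact hp (h5.2.symm.trans (hf x h5.1 l hl hx2).symm)
    have h4 : bd (w (f l)) l = c l := by
      rw [hw2 (f l) l ⟨hl, rfl⟩, rs_mem]
      exact ⟨hl, rfl⟩
    by_cases h5 : c l = 0
    · rw [h5] at h4 ⊢
      apply Finset.sum_eq_zero
      intro p _
      by_cases hp : p = f l
      · rw [hp]; exact h4
      · exact h3 p hp
    · rw [Finset.sum_eq_single (f l) (fun p _ hp => h3 p hp), h4]
      intro h6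
      exact absurd (Finset.mem_image_of_mem f (Finsupp.mem_support_iff.2 h5)) h6

/-- The cluster lemma: a family filtered by `r ∘ f` with exact fibres of `f` is exact. -/
theorem cluster {P : Type} {S : Set (List α)} (hS : Conv S) (f : List α → P) (r : P → ℕ)
    (hf : ∀ l ∈ S, ∀ m ∈ S, D l m ≠ 0 → f m = f l ∨ r (f m) < r (f l)) {k : ℕ}
    (h : ∀ p, Ex M {l | l ∈ S ∧ f l = p} k) (hr : ∀ l₁ ∈ S, ∀ l₂ ∈ S, l₁.Sublist l₂ →
      r (f l₁) ≤ r (f l₂)) : Ex M S k := by
  classical
  -- the pieces of fixed rank
  have hpc : ∀ n, Ex M {l | l ∈ S ∧ r (f l) = n} k := by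
    intro n
    apply pieces f
    · rintro l ⟨hl, hl2⟩ m ⟨hm, hm2⟩ hlm
      rcases hf l hl m hm hlm with h1 | h1
      · exact h1
      · omega
    · intro p
      by_cases hp : r p = n
      · have : {l | l ∈ {l | l ∈ S ∧ r (f l) = n} ∧ f l = p} = {l | l ∈ S ∧ f l = p} := by
          ext l
          constructor
          · rintro ⟨⟨h1, _⟩, h3⟩
            exact ⟨h1, h3⟩
          · rintro ⟨h1, h2⟩
            exact ⟨⟨h1, by rw [h2, hp]⟩, h2⟩
        rw [this]
        exact h p
      · have : {l | l ∈ {l | l ∈ S ∧ r (f l) = n} ∧ f l = p} = (∅ : Set (List α)) := by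
          ext l
          constructor
          · rintro ⟨⟨h1, h2⟩, h3⟩
            rw [h3] at h2
            exact hp h2
          · rintro ⟨⟩
        rw [this]
        intro c hc _
        refine ⟨0, IsC.zero _ _, ?_⟩
        rintro l ⟨⟩
  have hlow : ∀ n, Ex M {l | l ∈ S ∧ r (f l) < n} k := by
    intro n
    induction n with
    | zero =>
      have : {l | l ∈ S ∧ r (f l) < 0} = (∅ : Set (List α)) := by
        ext l
        simp
      rw [this]
      intro c hc _
      refine ⟨0, IsC.zero _ _, ?_⟩
      rintro l ⟨⟩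
    | succ n ih =>
      refine L1 (A := {l | l ∈ S ∧ r (f l) < n}) (B := {l | l ∈ S ∧ r (f l) = n}) ?_ ih (hpc n)
      refine ⟨?_, ?_, ?_, ?_⟩
      · intro l₁ l₂ l₃ h1 h3 h12 h23
        have h2 := hS l₁ l₂ l₃ h1.1 h3.1 h12 h23
        exact ⟨h2, lt_of_le_of_lt (hr l₂ h2 l₃ h3.1 h23) h3.2⟩
      · ext l
        simp only [Set.mem_ofPred_eq, Set.mem_union]
        constructor
        · rintro ⟨h1, h2⟩
          rcases Nat.lt_succ_iff_lt_or_eq.1 h2 with h3 | h3
          · exact Or.inl ⟨h1, h3⟩
          · exact Or.inr ⟨h1, h3⟩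
        · rintro (⟨h1, h2⟩ | ⟨h1, h2⟩)
          · exact ⟨h1, by omega⟩
          · exact ⟨h1, by omega⟩
      · rintro l ⟨_, h2⟩ ⟨_, h4⟩
        omega
      · rintro a ⟨ha, ha2⟩ b ⟨hb, hb2⟩
        by_contra h1
        rcases hf a ha b hb h1 with h2 | h2
        · rw [h2] at hb2
          omega
        · omega
  intro c hc hz
  let n := c.support.sup (fun l => r (f l)) + 1
  have hn : ∀ l, c l ≠ 0 → r (f l) < n := by
    intro l hl
    have : r (f l) ≤ c.support.sup (fun l => r (f l)) :=
      Finset.le_sup (f := fun l => r (f l)) (Finsupp.mem_support_iff.2 hl)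
    omega
  obtain ⟨w, hw, hw2⟩ := hlow n c (fun l hl => ⟨⟨(hc l hl).1, hn l hl⟩, (hc l hl).2⟩)
    (fun m hm => hz m hm.1)
  refine ⟨w, fun l hl => ⟨(hw l hl).1.1, (hw l hl).2⟩, ?_⟩
  intro l hl
  by_cases h1 : r (f l) < n
  · exact hw2 l ⟨hl, h1⟩
  · have h2 : c l = 0 := by
      by_contra h3
      exact h1 (hn l h3)
    rw [h2]
    by_contra h3
    obtain ⟨x, hx1, hx2⟩ := bd_ne_zero h3
    have h4 := (hw x hx1).1
    have h6 : r (f x) < n := h4.2
    rcases hf x h4.1 l hl hx2 with h5 | h5
    · rw [← h5] at h6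
      exact h1 h6
    · exact h1 (h5.trans h6)

theorem ex_empty (k : ℕ) : Ex M (∅ : Set (List α)) k := by
  intro c hc _
  refine ⟨0, IsC.zero _ _, ?_⟩
  rintro l ⟨⟩

/-- No members of length `k`. -/
theorem ex_of_no {S : Set (List α)} {k : ℕ} (h : ∀ l ∈ S, l.length ≠ k) : Ex M S k := by
  intro c hc _
  refine ⟨0, IsC.zero _ _, ?_⟩
  intro l hl
  have : c l = 0 := by
    by_contra h1
    exact h l (hc l h1).1 (hc l h1).2
  rw [this]
  simp

theorem ex_singleton (l : List α) {k : ℕ} (hk : k ≠ l.length) : Ex M ({l} : Set (List α)) k := by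
  apply ex_of_no
  rintro m rfl h
  exact hk h.symm

/-- A pair of a list and a face of it. -/
theorem ex_pair {l m : List α} {e : ℤ} (he : e * e = 1) (h : D l m = e) (k : ℕ) :
    Ex M ({m, l} : Set (List α)) k := by
  have hne : D l m ≠ 0 := by
    intro h0
    rw [h] at h0
    rw [h0] at he
    simp at he
  have hlen := (D_ne_zero hne).2
  have hll : D l l = 0 := D_length (by omega)
  intro c hc hz
  by_cases hk : k = m.length
  · have hcl : c l = 0 := by
      by_contra h1
      have := (hc l h1).2
      omega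
    refine ⟨single l (e • c m), ?_, ?_⟩
    · intro x hx
      have : x = l := by
        by_contra h1
        exact hx (Finsupp.single_eq_of_ne h1)
      subst this
      exact ⟨by simp, by omega⟩
    · intro x hx
      rw [bd_single]
      rcases hx with rfl | hx
      · rw [h, smul_smul, he, one_smul]
      · have hx' : x = l := hx
        subst hx'
        rw [hll, zero_smul, hcl]
  · have hcm : c m = 0 := by
      by_contra h1
      exact hk (hc m h1).2.symm
    have hcs : c = single l (c l) := by
      ext x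
      by_cases hx : x = l
      · subst hx; simp
      · rw [Finsupp.single_eq_of_ne hx]
        by_contra h1
        rcases (hc x h1).1 with h2 | h2
        · exact h1 (h2 ▸ hcm)
        · exact hx h2
    have h1 := hz m (by simp)
    rw [hcs, bd_single, h] at h1
    have h2 : c l = 0 := by
      have h3 : e • (e • c l) = 0 := by rw [h1, smul_zero]
      rw [smul_smul, he, one_smul] at h3
      exact h3
    refine ⟨0, IsC.zero _ _, ?_⟩
    intro x hx
    rw [map_zero, Finsupp.zero_apply, hcs, h2]
    simp

end chains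

section transport

variable {α β : Type} {M : Type} [AddCommGroup M]

/-- Transport of exactness along a map of families that preserves the incidence numbers up to a
constant sign and shifts the degree by `s`. -/
theorem transport (g : List α → List β) {S : Set (List α)} (hinj : S.InjOn g) {e : ℤ}
    (he : e * e = 1) {s : ℕ} (hlen : ∀ l ∈ S, (g l).length = l.length + s)
    (hD : ∀ l ∈ S, ∀ m ∈ S, D (g l) (g m) = e * D l m) {k : ℕ} :
    Ex M (g '' S) (k + s) ↔ Ex M S k := by
  classical
  -- push forward
  have push : ∀ (j : ℕ) (c : List α →₀ M), IsC S j c →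
      IsC (g '' S) (j + s) (c.mapDomain g) ∧ (∀ l ∈ S, c.mapDomain g (g l) = c l) ∧
      ∀ m ∈ S, bd (c.mapDomain g) (g m) = e • bd c m := by
    intro j c hc
    have hsup : (c.support : Set (List α)) ⊆ S := fun l hl =>
      (hc l (Finsupp.mem_support_iff.1 hl)).1
    have h1 : ∀ l ∈ S, c.mapDomain g (g l) = c l := by
      intro l hl
      rw [Finsupp.mapDomain, Finsupp.sum_apply, Finsupp.sum]
      rw [Finset.sum_eq_single l]
      · simp
      · intro x hx hxl
        rw [Finsupp.single_eq_of_ne]
        intro h2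
        exact hxl (hinj (hsup hx) hl h2.symm)
      · intro hl2
        rw [Finsupp.notMem_support_iff.1 hl2]
        simp
    refine ⟨?_, h1, ?_⟩
    · intro y hy
      have hy2 : y ∈ (c.mapDomain g).support := Finsupp.mem_support_iff.2 hy
      have hy3 := Finsupp.mapDomain_support hy2
      rw [Finset.mem_image] at hy3
      obtain ⟨x, hx, rfl⟩ := hy3
      have hx2 := hc x (Finsupp.mem_support_iff.1 hx)
      exact ⟨⟨x, hx2.1, rfl⟩, by rw [hlen x hx2.1, hx2.2]⟩
    · intro m hm
      rw [bd_apply, bd_apply, Finsupp.sum_mapDomain_index (by simp) (by intro l a b; simp)]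
      rw [Finsupp.sum, Finsupp.sum, Finset.smul_sum]
      refine Finset.sum_congr rfl fun l hl => ?_
      rw [hD l (hsup hl) m hm, mul_smul]
  -- pull back
  have pull : ∀ (j : ℕ) (c : List β →₀ M), IsC (g '' S) (j + s) c →
      ∃ c' : List α →₀ M, IsC S j c' ∧ c'.mapDomain g = c := by
    intro j c hc
    let σ : List β → List α := fun y => if h : y ∈ g '' S then h.choose else []
    have hσ : ∀ y ∈ g '' S, σ y ∈ S ∧ g (σ y) = y := by
      intro y hy
      have : σ y = hy.choose := dif_pos hy
      rw [this]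
      exact hy.choose_spec
    refine ⟨c.mapDomain σ, ?_, ?_⟩
    · intro x hx
      have hx2 : x ∈ (c.mapDomain σ).support := Finsupp.mem_support_iff.2 hx
      have hx3 := Finsupp.mapDomain_support hx2
      rw [Finset.mem_image] at hx3
      obtain ⟨y, hy, rfl⟩ := hx3
      have hy2 := hc y (Finsupp.mem_support_iff.1 hy)
      have hy3 := hσ y hy2.1
      have hy4 := hlen _ hy3.1
      rw [hy3.2, hy2.2] at hy4
      exact ⟨hy3.1, by omega⟩
    · rw [← Finsupp.mapDomain_comp]
      have : c.mapDomain (g ∘ σ) = c.mapDomain id := by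
        apply Finsupp.mapDomain_congr
        intro y hy
        exact (hσ y (hc y (Finsupp.mem_support_iff.1 hy)).1).2
      rw [this, Finsupp.mapDomain_id]
  have smulC : ∀ (j : ℕ) (c : List α →₀ M), IsC S j c → IsC S j (e • c) := by
    intro j c hc l hl
    apply hc l
    intro h1
    apply hl
    rw [Finsupp.smul_apply, h1, smul_zero]
  constructor
  · intro h c hc hz
    obtain ⟨h1, h2, h3⟩ := push k c hc
    obtain ⟨w', hw', hw2⟩ := h _ h1 (by
      rintro _ ⟨m, hm, rfl⟩
      rw [h3 m hm, hz m hm, smul_zero])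
    obtain ⟨w, hw, rfl⟩ := pull (k + 1) w' (by
      have : k + 1 + s = k + s + 1 := by ring
      rw [this]
      exact hw')
    refine ⟨e • w, smulC _ _ hw, ?_⟩
    intro l hl
    obtain ⟨-, -, h4⟩ := push (k + 1) w hw
    rw [map_zsmul, Finsupp.smul_apply, ← h4 l hl, hw2 (g l) ⟨l, hl, rfl⟩, h2 l hl]
  · intro h c' hc' hz
    obtain ⟨c, hc, rfl⟩ := pull k c' hc'
    obtain ⟨h1, h2, h3⟩ := push k c hc
    obtain ⟨w, hw, hw2⟩ := h c hc (by
      intro m hm
      have h4 := hz (g m) ⟨m, hm, rfl⟩
      rw [h3 m hm] at h4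
      have h5 : e • (e • bd c m) = 0 := by rw [h4, smul_zero]
      rw [smul_smul, he, one_smul] at h5
      exact h5)
    obtain ⟨h4, -, h6⟩ := push (k + 1) (e • w) (smulC _ _ hw)
    refine ⟨(e • w).mapDomain g, ?_, ?_⟩
    · have : k + 1 + s = k + s + 1 := by ring
      rw [← this]
      exact h4
    · rintro _ ⟨l, hl, rfl⟩
      rw [h6 l hl, map_zsmul, Finsupp.smul_apply, hw2 l hl, smul_smul, he, one_smul, h2 l hl]

end transport

end Pool.Agent.P8H39.MH
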