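import Mathlib
import Pool.Agent.P8H39.MH.Rel

/-!
# Incidence numbers of concatenated and mapped lists
-/

set_option autoImplicit false

namespace Pool.Agent.P8H39.MH

variable {α β : Type}

theorem D_append_left (b l m : List α) (h : (b ++ l).Nodup) :
    D (b ++ l) (b ++ m) = (-1) ^ b.length * D l m := by
  induction b with
  | nil => simp
  | cons a b ih =>
    rw [List.cons_append, List.cons_append, D_cons_cons, if_pos rfl, ih (List.nodup_cons.1 h).2]
    rw [if_neg]
    · rw [List.length_cons, pow_succ]
      ring
    · intro h1
      rw [List.cons_append, List.nodup_cons, h1] at h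
      exact h.1 (by simp)

theorem D_append_right (b l m : List α) (h : (l ++ b).Nodup) :
    D (l ++ b) (m ++ b) = D l m := by
  induction l generalizing m with
  | nil =>
    rw [D_nil]
    apply D_length
    simp
    omega
  | cons a l ih =>
    have h' := (List.nodup_cons.1 h)
    cases m with
    | nil =>
      rw [D_cons_nil, List.nil_append, List.cons_append]
      cases b with
      | nil =>
        rw [D_cons_nil]
        simp
      | cons c b =>
        rw [D_cons_cons]
        have h1 : ¬ a = c := by
          rintro rfl
          apply h'.1
          simp
        rw [if_neg h1, sub_zero]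
        congr 1
        rw [eq_iff_iff]
        constructor
        · intro h2
          by_contra h3
          have := congrArg List.length h2
          rw [List.length_append] at this
          have h4 : l.length ≠ 0 := fun h5 => h3 (List.length_eq_zero_iff.1 h5)
          omega
        · rintro rfl
          rfl
    | cons c m =>
      rw [List.cons_append, List.cons_append, D_cons_cons, D_cons_cons, ih _ h'.2,
        ← List.cons_append]
      congr 2
      rw [List.append_left_inj]

theorem D_map (g : α → β) (l m : List α) (h : ∀ x ∈ l, ∀ y ∈ m, g x = g y → x = y) :
    D (l.map g) (m.map g) = D l m := by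
  induction l generalizing m with
  | nil => simp [D_nil]
  | cons a l ih =>
    cases m with
    | nil =>
      rw [List.map_nil, List.map_cons, D_cons_nil, D_cons_nil]
      simp
    | cons c m =>
      rw [List.map_cons, List.map_cons, D_cons_cons, D_cons_cons]
      have h1 : g a = g c ↔ a = c :=
        ⟨h a (by simp) c (by simp), fun h => h ▸ rfl⟩
      have h2 : l.map g = g c :: m.map g ↔ l = c :: m := by
        rw [← List.map_cons]
        constructor
        · intro h3
          have hlen : l.length = (c :: m).length := by
            have := congrArg List.length h3
            simpa using this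
          apply List.ext_getElem hlen
          intro i hi1 hi2
          apply h _ (List.mem_cons_of_mem _ (List.getElem_mem hi1)) _ (List.getElem_mem hi2)
          have h4 := List.getElem_of_eq h3 (i := i) (by simpa using hi1)
          rw [List.getElem_map, List.getElem_map] at h4
          exact h4
        · rintro rfl
          rfl
      rw [ih m fun x hx y hy => h x (by simp [hx]) y (by simp [hy])]
      by_cases h3 : l = c :: m
      · have h4 := h2.2 h3
        rw [if_pos h4, if_pos h3]
        by_cases h5 : a = c
        · rw [if_pos h5, if_pos (h1.2 h5)]
        · rw [if_neg h5, if_neg (fun h6 => h5 (h1.1 h6))]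
      · have h4 : ¬ l.map g = g c :: m.map g := fun h5 => h3 (h2.1 h5)
        rw [if_neg h4, if_neg h3]
        by_cases h5 : a = c
        · rw [if_pos h5, if_pos (h1.2 h5)]
        · rw [if_neg h5, if_neg (fun h6 => h5 (h1.1 h6))]

/-- The face obtained by deleting the entry `a` after the prefix `p`. -/
theorem D_erase (p q : List α) (a : α) (h : (p ++ a :: q).Nodup) :
    D (p ++ a :: q) (p ++ q) = (-1) ^ p.length := by
  rw [D_append_left _ _ _ h]
  have h1 : D (a :: q) q = 1 := by
    cases q with
    | nil => rw [D_cons_nil]; simp
    | cons b q =>
      rw [D_cons_cons, if_pos rfl, if_neg]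
      · simp
      · rintro rfl
        have := (List.nodup_append.1 h).2.1
        simp at this
  rw [h1, mul_one]

theorem sign_sq (n : ℕ) : ((-1 : ℤ) ^ n) * (-1) ^ n = 1 := by
  rw [← mul_pow]
  simp

end Pool.Agent.P8H39.MH
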