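import Mathlib
import Pool.Agent.P8H39.MH.Lst
import Pool.Agent.R142.Arr
import Pool.Agent.R142.MagHom

/-!
# Torsion in the magnitude homology of arrangements: definitions and statements of the packages
-/

set_option autoImplicit false

namespace Pool.Agent.P8H39.MH

section defs

variable {ι : Type} [DecidableEq ι]

/-- The sign vector `G` flipped on `P`. -/
def flp (G : ι → SignType) (P : Finset ι) : ι → SignType := fun i => if i ∈ P then -G i else G i

/-- The sign vector `G` made zero on `P`. -/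
def zro (G : ι → SignType) (P : Finset ι) : ι → SignType := fun i => if i ∈ P then 0 else G i

/-- The composition of sign vectors. -/
def cmp (X Y : ι → SignType) : ι → SignType := fun i => if X i = 0 then Y i else X i

/-- The properties of the set of covectors of an arrangement that are used. -/
structure COS (L : Set (ι → SignType)) : Prop where
  neg : ∀ X ∈ L, -X ∈ L
  comp : ∀ X ∈ L, ∀ Y ∈ L, cmp X Y ∈ L
  elim : ∀ X ∈ L, ∀ P : Finset ι, P.Nonempty → (∀ i ∈ P, X i ≠ 0) → flp X P ∈ L →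
    (∀ P' : Finset ι, P'.Nonempty → P' ⊂ P → flp X P' ∉ L) → zro X P ∈ L

/-- The strictly increasing lists of members of `G`. -/
def Chn (G : Set (Finset ι)) : Set (List (Finset ι)) :=
  {l | l.Pairwise (· ⊂ ·) ∧ ∀ Q ∈ l, Q ∈ G}

/-- A short step. -/
def stp (u v : ι → ℕ) : Prop := u ≠ v ∧ ∀ i, u i ≤ v i ∧ v i ≤ u i + 1

/-- The lists `τ` of members of `A` such that `u, τ, w` is a chain of short steps. -/
def MM (A : Set (ι → ℕ)) (u w : ι → ℕ) : Set (List (ι → ℕ)) :=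
  {τ | List.IsChain stp (u :: (τ ++ [w])) ∧ ∀ v ∈ τ, v ∈ A}

/-- The indicator of `Q`. -/
def ind (Q : Finset ι) : ι → ℕ := fun i => if i ∈ Q then 1 else 0

/-- The sign vector reached from `C` after crossing the `i`-th hyperplane `u i` times. -/
def xs (C : ι → SignType) (u : ι → ℕ) : ι → SignType := fun i => if Even (u i) then C i else -C i

/-- The points whose sign vector is a covector. -/
def adm (L : Set (ι → SignType)) (C : ι → SignType) : Set (ι → ℕ) := {u | xs C u ∈ L}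

end defs

/-- GAM: the poset of the zero sets of the faces visible from a tope is acyclic. -/
def S_GAM : Prop := ∀ (ι : Type) [Fintype ι] [DecidableEq ι] (L : Set (ι → SignType)), COS L →
  ∀ G ∈ L, (∀ i, G i ≠ 0) → ∀ P₀ J : Finset ι, zro G P₀ ∈ L → J.Nonempty → Disjoint P₀ J →
  flp (zro G P₀) J ∈ L → ∀ (M : Type) [AddCommGroup M] (k : ℕ),
    Ex M (Chn {Q | P₀ ⊂ Q ∧ Q ⊆ P₀ ∪ J ∧ zro G Q ∈ L}) k

/-- INT: open intervals of faces are spheres, with a further factor `T`. -/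
def S_INT : Prop := ∀ (ι : Type) [Fintype ι] [DecidableEq ι] (L : Set (ι → SignType)), COS L →
  ∀ G ∈ L, (∀ i, G i ≠ 0) → ∀ P₀ Z : Finset ι, zro G P₀ ∈ L → zro G Z ∈ L → P₀ ⊂ Z →
  ∃ n : ℕ, ∀ (β : Type) (T : Set (List β)), Conv T → (∀ τ ∈ T, τ.Nodup) →
    ∀ (M : Type) [AddCommGroup M] (κ : ℕ), (∀ k, k ≠ κ → Ex M T k) →
    ∀ k, k ≠ κ + n → Ex M {l : List (Finset ι ⊕ β) | ∃ φ ∈ Chn {Q | P₀ ⊂ Q ∧ Q ⊂ Z ∧ zro G Q ∈ L},
      ∃ τ ∈ T, l = φ.map Sum.inl ++ Sum.inl Z :: τ.map Sum.inr} k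

/-- CONV: the families `MM` are convex. -/
def S_CONV : Prop := ∀ (ι : Type) [Fintype ι] [DecidableEq ι] (A : Set (ι → ℕ)) (u w : ι → ℕ),
  Conv (MM A u w)

/-- EXIT: walks that start with the reflection in a face `Q` of the start and leave the
localization at `Q` form an acyclic complex. -/
def S_EXIT : Prop := ∀ (ι : Type) [Fintype ι] [DecidableEq ι] (L : Set (ι → SignType)), COS L →
  ∀ C ∈ L, (∀ i, C i ≠ 0) → ∀ u w : ι → ℕ, u ∈ adm L C → w ∈ adm L C →
  ∀ Q : Finset ι, Q.Nonempty → zro (xs C u) Q ∈ L → (∃ i, i ∉ Q ∧ u i < w i) →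
  ∀ (M : Type) [AddCommGroup M] (k : ℕ),
    Ex M {τ | τ ∈ MM (adm L C) u w ∧ u + ind Q ≤ τ.headD w} k

/-- VAN: the vanishing theorem. -/
def S_VAN : Prop := ∀ (ι : Type) [Fintype ι] [DecidableEq ι] (L : Set (ι → SignType)), COS L →
  ∀ C ∈ L, (∀ i, C i ≠ 0) → ∀ u w : ι → ℕ, u ∈ adm L C → w ∈ adm L C → u ≤ w → u ≠ w →
  ∃ κ : ℕ, ∀ (M : Type) [AddCommGroup M] (k : ℕ), k ≠ κ → Ex M (MM (adm L C) u w) k

/-- FIN: the transfer to the magnitude homology of the tope graph. -/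
def S_FIN : Prop := S_VAN → ∀ (d : ℕ) (A : Finset (Submodule ℝ (Fin d → ℝ))),
  Pool.Agent.R142.Arr.IsArrangement A → ∀ (k l : ℕ) (m : ℤ)
    (x : Pool.Agent.R142.MagHom.MH (Pool.Agent.R142.Arr.topeGraph A) k l),
    m ≠ 0 → m • x = 0 → x = 0

end Pool.Agent.P8H39.MH
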