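import Mathlib
import Pool.Agent.P8H39.MH.Stm

/-!
# Hybrid lists: a chain of faces followed by a walk
-/

set_option autoImplicit false

namespace Pool.Agent.P8H39.MH

section tr

variable {α β : Type} {M : Type} [AddCommGroup M]

theorem transport_ne (g : List α → List β) {S : Set (List α)} (hinj : S.InjOn g) {e : ℤ}
    (he : e * e = 1) {s : ℕ} (hlen : ∀ l ∈ S, (g l).length = l.length + s)
    (hD : ∀ l ∈ S, ∀ m ∈ S, D (g l) (g m) = e * D l m) {κ : ℕ} (h : ∀ k, k ≠ κ → Ex M S k) :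
    ∀ k, k ≠ κ + s → Ex M (g '' S) k := by
  intro k hk
  by_cases h1 : k < s
  · apply ex_of_no
    rintro _ ⟨l, hl, rfl⟩ h2
    rw [hlen l hl] at h2
    omega
  · obtain ⟨j, rfl⟩ : ∃ j, k = j + s := ⟨k - s, by omega⟩
    exact (transport g hinj he hlen hD).2 (h j (by omega))

theorem transport_all (g : List α → List β) {S : Set (List α)} (hinj : S.InjOn g) {e : ℤ}
    (he : e * e = 1) {s : ℕ} (hlen : ∀ l ∈ S, (g l).length = l.length + s)
    (hD : ∀ l ∈ S, ∀ m ∈ S, D (g l) (g m) = e * D l m) (h : ∀ k, Ex M S k) :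
    ∀ k, Ex M (g '' S) k := by
  intro k
  by_cases h1 : k < s
  · apply ex_of_no
    rintro _ ⟨l, hl, rfl⟩ h2
    rw [hlen l hl] at h2
    omega
  · obtain ⟨j, rfl⟩ : ∃ j, k = j + s := ⟨k - s, by omega⟩
    exact (transport g hinj he hlen hD).2 (h j)

end tr

section hyb

variable {α β : Type}

/-- A list of `α` followed by a list of `β`. -/
def hyb (φ : List α) (τ : List β) : List (α ⊕ β) := φ.map Sum.inl ++ τ.map Sum.inr

/-- The part in `α`. -/
def lf (l : List (α ⊕ β)) : List α := l.filterMap Sum.getLeft?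

/-- The part in `β`. -/
def rt (l : List (α ⊕ β)) : List β := l.filterMap Sum.getRight?

theorem lf_hyb (φ : List α) (τ : List β) : lf (hyb φ τ) = φ := by
  unfold lf hyb
  rw [List.filterMap_append, List.filterMap_map, List.filterMap_map]
  have h1 : List.filterMap (Sum.getLeft? ∘ (Sum.inl : α → α ⊕ β)) φ = φ := by
    rw [show (Sum.getLeft? ∘ (Sum.inl : α → α ⊕ β)) = some from by
      funext x; rfl]
    exact List.filterMap_some
  have h2 : List.filterMap (Sum.getLeft? ∘ (Sum.inr : β → α ⊕ β)) τ = [] := by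
    rw [List.filterMap_eq_nil_iff]
    intro a _
    rfl
  rw [h1, h2, List.append_nil]

theorem rt_hyb (φ : List α) (τ : List β) : rt (hyb φ τ) = τ := by
  unfold rt hyb
  rw [List.filterMap_append, List.filterMap_map, List.filterMap_map]
  have h1 : List.filterMap (Sum.getRight? ∘ (Sum.inr : β → α ⊕ β)) τ = τ := by
    rw [show (Sum.getRight? ∘ (Sum.inr : β → α ⊕ β)) = some from by
      funext x; rfl]
    exact List.filterMap_some
  have h2 : List.filterMap (Sum.getRight? ∘ (Sum.inl : α → α ⊕ β)) φ = [] := by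
    rw [List.filterMap_eq_nil_iff]
    intro a _
    rfl
  rw [h1, h2, List.nil_append]

theorem lf_sub {l m : List (α ⊕ β)} (h : l.Sublist m) : (lf l).Sublist (lf m) := h.filterMap _

theorem rt_sub {l m : List (α ⊕ β)} (h : l.Sublist m) : (rt l).Sublist (rt m) := h.filterMap _

theorem sub_hyb {φ : List α} {τ : List β} {l : List (α ⊕ β)} (h : l.Sublist (hyb φ τ)) :
    ∃ φ' τ', l = hyb φ' τ' ∧ φ'.Sublist φ ∧ τ'.Sublist τ := by
  unfold hyb at h
  rw [List.sublist_append_iff] at h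
  obtain ⟨l1, l2, rfl, h1, h2⟩ := h
  rw [List.sublist_map_iff] at h1 h2
  obtain ⟨φ', h3, rfl⟩ := h1
  obtain ⟨τ', h4, rfl⟩ := h2
  exact ⟨φ', τ', rfl, h3, h4⟩

theorem nodup_hyb {φ : List α} {τ : List β} (h1 : φ.Nodup) (h2 : τ.Nodup) : (hyb φ τ).Nodup := by
  unfold hyb
  rw [List.nodup_append]
  refine ⟨h1.map Sum.inl_injective, h2.map Sum.inr_injective, ?_⟩
  intro a ha b hb
  rw [List.mem_map] at ha hb
  obtain ⟨x, _, rfl⟩ := ha
  obtain ⟨y, _, rfl⟩ := hb
  simp

theorem D_hyb_right {φ ψ : List α} {τ : List β} (h1 : φ.Nodup) (h2 : τ.Nodup) :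
    D (hyb φ τ) (hyb ψ τ) = 1 * D φ ψ := by
  have h := nodup_hyb h1 h2
  unfold hyb at h ⊢
  rw [D_append_right _ _ _ h, D_map _ _ _ (fun x _ y _ hxy => Sum.inl_injective hxy), one_mul]

theorem D_hyb_left {φ : List α} {τ σ : List β} (h1 : φ.Nodup) (h2 : τ.Nodup) :
    D (hyb φ τ) (hyb φ σ) = (-1) ^ φ.length * D τ σ := by
  have h := nodup_hyb h1 h2
  unfold hyb at h ⊢
  rw [D_append_left _ _ _ h, D_map _ _ _ (fun x _ y _ hxy => Sum.inr_injective hxy),
    List.length_map]

theorem length_hyb (φ : List α) (τ : List β) : (hyb φ τ).length = φ.length + τ.length := by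
  simp [hyb]

end hyb

section mm

variable {ι : Type}

theorem stp.le {u v : ι → ℕ} (h : stp u v) : u ≤ v := fun i => (h.2 i).1

theorem stp.lt {u v : ι → ℕ} (h : stp u v) : u < v := lt_of_le_of_ne h.le h.1

theorem mm_sorted {A : Set (ι → ℕ)} {u w : ι → ℕ} {τ : List (ι → ℕ)} (h : τ ∈ MM A u w) :
    (u :: (τ ++ [w])).Pairwise (· < ·) := by
  rw [← List.isChain_iff_pairwise]
  exact h.1.imp fun a b hab => hab.lt

theorem mm_nodup {A : Set (ι → ℕ)} {u w : ι → ℕ} {τ : List (ι → ℕ)} (h : τ ∈ MM A u w) :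
    τ.Nodup := by
  have h1 := (List.pairwise_cons.1 (mm_sorted h)).2
  have h2 := (List.pairwise_append.1 h1).1
  exact h2.imp fun hab => ne_of_lt hab

theorem mm_stp_head {A : Set (ι → ℕ)} {u w : ι → ℕ} {τ : List (ι → ℕ)} (h : τ ∈ MM A u w) :
    stp u (τ.headD w) := by
  obtain ⟨h1, _⟩ := h
  cases τ with
  | nil => simpa using h1
  | cons a τ =>
    rw [List.cons_append, List.isChain_cons_cons] at h1
    exact h1.1

theorem mm_head_le {A : Set (ι → ℕ)} {u w : ι → ℕ} {τ : List (ι → ℕ)} (h : τ ∈ MM A u w)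
    {v : ι → ℕ} (hv : v ∈ τ ++ [w]) : τ.headD w ≤ v := by
  have h1 := (List.pairwise_cons.1 (mm_sorted h)).2
  cases τ with
  | nil =>
    simp at hv
    simp [hv]
  | cons a τ =>
    rw [List.cons_append] at h1 hv
    rcases List.mem_cons.1 hv with rfl | hv
    · simp
    · exact (List.rel_of_pairwise_cons h1 hv).le

theorem headD_mem {τ : List (ι → ℕ)} (w : ι → ℕ) : τ.headD w ∈ τ ++ [w] := by
  cases τ <;> simp

theorem mm_head_mono {A : Set (ι → ℕ)} {u w : ι → ℕ} {τ τ' : List (ι → ℕ)} (h : τ ∈ MM A u w)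
    (h' : τ'.Sublist τ) : τ.headD w ≤ τ'.headD w := by
  apply mm_head_le h
  have := headD_mem (τ := τ') w
  exact (h'.append (List.Sublist.refl [w])).subset this

theorem mm_head_le_w {A : Set (ι → ℕ)} {u w : ι → ℕ} {τ : List (ι → ℕ)} (h : τ ∈ MM A u w) :
    τ.headD w ≤ w := mm_head_le h (by simp)

end mm

section signs

variable {ι : Type} [DecidableEq ι]

theorem zro_empty (G : ι → SignType) : zro G ∅ = G := by
  funext i
  simp [zro]

theorem sneg_eq_zero (s : SignType) : -s = 0 ↔ s = 0 := by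
  cases s <;> decide

theorem sneg_neg (s : SignType) : - -s = s := by
  cases s <;> decide

theorem xs_ne {C : ι → SignType} (hC : ∀ i, C i ≠ 0) (u : ι → ℕ) (i : ι) : xs C u i ≠ 0 := by
  unfold xs
  split_ifs
  · exact hC i
  · rw [Ne, sneg_eq_zero]
    exact hC i

theorem flp_zro_mem {L : Set (ι → SignType)} (hL : COS L) {G : ι → SignType} (hG : G ∈ L)
    {Q : Finset ι} (hQ : zro G Q ∈ L) : flp G Q ∈ L := by
  have h := hL.comp _ hQ _ (hL.neg _ hG)
  convert h using 1
  funext i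
  unfold flp cmp zro
  by_cases hi : i ∈ Q
  · simp [hi]
  · simp only [hi, if_false]
    split_ifs with h0
    · rw [h0]
      simp [h0]
    · rfl

/-- Crossing the hyperplanes of `J` once more. -/
theorem xs_flp {C : ι → SignType} {u v : ι → ℕ} (J : Finset ι) (h : ∀ i, i ∈ J → v i = u i + 1)
    (h' : ∀ i, i ∉ J → v i = u i) : xs C v = flp (xs C u) J := by
  funext i
  unfold xs flp
  by_cases hi : i ∈ J
  · rw [if_pos hi, h i hi]
    by_cases he : Even (u i)
    · rw [if_neg (by rw [Nat.even_add_one]; simpa using he)]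
      simp [he]
    · rw [if_pos (by rw [Nat.even_add_one]; exact he)]
      simp [he, sneg_neg]
  · rw [if_neg hi, h' i hi]

end signs

end Pool.Agent.P8H39.MH
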