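import Mathlib
import Pool.Agent.P8H39.MH.Hyb

/-!
# The vanishing theorem

Hybrid lists (a chain of faces of the starting chamber, followed by a walk which first crosses at
least all hyperplanes through these faces) form an acyclic complex; comparing the part without
faces with the rest gives the concentration of the homology of `MM` in one degree.
-/

set_option autoImplicit false

namespace Pool.Agent.P8H39.MH

section van

set_option linter.unusedSectionVars false

variable {ι : Type} [Fintype ι] [DecidableEq ι]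

/-- The hybrid family. -/
def XX (L : Set (ι → SignType)) (C : ι → SignType) (u w : ι → ℕ) :
    Set (List (Finset ι ⊕ (ι → ℕ))) :=
  {l | ∃ φ τ, l = hyb φ τ ∧ τ ∈ MM (adm L C) u w ∧
    φ ∈ Chn {Q | Q.Nonempty ∧ zro (xs C u) Q ∈ L} ∧ ∀ Q ∈ φ, u + ind Q ≤ τ.headD w}

theorem chn_sub {G : Set (Finset ι)} {φ ψ : List (Finset ι)} (h : φ ∈ Chn G) (h' : ψ.Sublist φ) :
    ψ ∈ Chn G := ⟨h.1.sublist h', fun Q hQ => h.2 Q (h'.subset hQ)⟩

theorem chn_nodup {G : Set (Finset ι)} {φ : List (Finset ι)} (h : φ ∈ Chn G) : φ.Nodup :=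
  h.1.imp fun hab => ne_of_lt hab

variable {L : Set (ι → SignType)} {C : ι → SignType} {u w : ι → ℕ}

theorem conv_XX (hC : S_CONV) : Conv (XX L C u w) := by
  rintro l₁ l₂ l₃ ⟨φ₁, τ₁, rfl, h1, h2, h3⟩ ⟨φ₃, τ₃, rfl, h4, h5, h6⟩ h12 h23
  obtain ⟨φ₂, τ₂, rfl, h7, h8⟩ := sub_hyb h23
  have h9 : τ₁.Sublist τ₂ := by
    have := rt_sub h12
    rwa [rt_hyb, rt_hyb] at this
  refine ⟨φ₂, τ₂, rfl, hC ι _ u w τ₁ τ₂ τ₃ h1 h4 h9 h8, chn_sub h5 h7, ?_⟩
  intro Q hQ
  exact (h6 Q (h7.subset hQ)).trans (mm_head_mono h4 h8)

theorem XX_rt {l : List (Finset ι ⊕ (ι → ℕ))} (h : l ∈ XX L C u w) : rt l ∈ MM (adm L C) u w := by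
  obtain ⟨φ, τ, rfl, h1, _⟩ := h
  rw [rt_hyb]
  exact h1

theorem XX_eq {l : List (Finset ι ⊕ (ι → ℕ))} (h : l ∈ XX L C u w) : l = hyb (lf l) (rt l) := by
  obtain ⟨φ, τ, rfl, _⟩ := h
  rw [rt_hyb, lf_hyb]

/-- The members of the face part lie below the indicator of `w - u`. -/
theorem XX_sub {l : List (Finset ι ⊕ (ι → ℕ))} (h : l ∈ XX L C u w) {Q : Finset ι}
    (hQ : Q ∈ lf l) : Q ⊆ Finset.univ.filter fun i => u i < w i := by
  obtain ⟨φ, τ, rfl, h1, h2, h3⟩ := h
  rw [lf_hyb] at hQ
  intro i hi
  have h4 := (h3 Q hQ).trans (mm_head_le_w h1) i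
  simp only [Pi.add_apply, ind, hi, if_true] at h4
  simp
  omega

/-- Comparison of a face with a short step. -/
theorem ind_le_iff {u v : ι → ℕ} (h : stp u v) (Q : Finset ι) :
    u + ind Q ≤ v ↔ Q ⊆ Finset.univ.filter fun i => u i < v i := by
  constructor
  · intro h1 i hi
    have h2 := h1 i
    simp only [Pi.add_apply, ind, hi, if_true] at h2
    simp
    omega
  · intro h1 i
    simp only [Pi.add_apply, ind]
    split_ifs with hi
    · have h2 := h1 hi
      simp at h2
      omega
    · exact (h.2 i).1

theorem stp_flp {u v : ι → ℕ} (h : stp u v) :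
    xs C v = flp (xs C u) (Finset.univ.filter fun i => u i < v i) := by
  apply xs_flp
  · intro i hi
    have h1 := h.2 i
    simp at hi
    omega
  · intro i hi
    have h1 := h.2 i
    simp at hi
    omega

/-- The whole hybrid complex is acyclic. -/
theorem ex_XX (hG : S_GAM) (hC : S_CONV) (hL : COS L) (hC0 : ∀ i, C i ≠ 0) (hu : u ∈ adm L C)
    (hw : w ∈ adm L C) (M : Type) [AddCommGroup M] (k : ℕ) : Ex M (XX L C u w) k := by
  apply cluster (conv_XX hC) rt (fun τ => τ.length)
  · intro l hl m hm hlm
    have h1 := rt_sub (D_ne_zero hlm).1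
    rcases Nat.lt_or_ge (rt m).length (rt l).length with h2 | h2
    · exact Or.inr h2
    · exact Or.inl (h1.eq_of_length_le h2)
  · intro τ
    by_cases hτ : τ ∈ MM (adm L C) u w
    · have hst := mm_stp_head hτ
      set v := τ.headD w with hv
      have hvA : v ∈ adm L C := by
        have := headD_mem (τ := τ) w
        rw [← hv, List.mem_append] at this
        rcases this with h | h
        · exact hτ.2 v h
        · simp at h
          rw [h]
          exact hw
      have hset : {l | l ∈ XX L C u w ∧ rt l = τ} =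
          (fun φ => hyb φ τ) '' (Chn {Q | ∅ ⊂ Q ∧ Q ⊆ ∅ ∪ (Finset.univ.filter fun i => u i < v i) ∧
            zro (xs C u) Q ∈ L}) := by
        ext l
        constructor
        · rintro ⟨⟨φ, τ', rfl, h1, h2, h3⟩, h4⟩
          rw [rt_hyb] at h4
          subst h4
          refine ⟨φ, ⟨h2.1, ?_⟩, rfl⟩
          intro Q hQ
          refine ⟨Finset.empty_ssubset.2 (h2.2 Q hQ).1, ?_, (h2.2 Q hQ).2⟩
          rw [Finset.empty_union]
          exact (ind_le_iff hst Q).1 (h3 Q hQ)
        · rintro ⟨φ, ⟨h1, h2⟩, rfl⟩
          refine ⟨⟨φ, τ, rfl, hτ, ⟨h1, fun Q hQ => ⟨Finset.empty_ssubset.1 (h2 Q hQ).1,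
            (h2 Q hQ).2.2⟩⟩, ?_⟩, rt_hyb φ τ⟩
          intro Q hQ
          have h3 := (h2 Q hQ).2.1
          rw [Finset.empty_union] at h3
          exact (ind_le_iff hst Q).2 h3
      rw [hset]
      refine transport_all (fun φ => hyb φ τ) ?_ (e := 1) (by norm_num) (s := τ.length) ?_ ?_ ?_ k
      · intro a _ b _ hab
        have := congrArg lf hab
        simpa only [lf_hyb] using this
      · intro l _
        exact length_hyb _ _
      · intro l hl m _
        exact D_hyb_right (chn_nodup hl) (mm_nodup hτ)
      · intro j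
        refine hG ι L hL (xs C u) hu (xs_ne hC0 u) ∅ _ ?_ ?_ ?_ ?_ M j
        · rw [zro_empty]
          exact hu
        · obtain ⟨i, hi⟩ := Function.ne_iff.1 hst.1
          refine ⟨i, ?_⟩
          have := (hst.2 i).1
          simp
          omega
        · exact Finset.disjoint_empty_left _
        · rw [zro_empty, ← stp_flp hst]
          exact hvA
    · have hset : {l | l ∈ XX L C u w ∧ rt l = τ} = (∅ : Set (List (Finset ι ⊕ (ι → ℕ)))) := by
        ext l
        constructor
        · rintro ⟨h1, h2⟩
          exact absurd (h2 ▸ XX_rt h1) hτ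
        · rintro ⟨⟩
      rw [hset]
      exact ex_empty k
  · intro l₁ _ l₂ _ h
    exact (rt_sub h).length_le

/-- The hybrid lists with faces all different from the support of `w - u`. -/
theorem ex_B1 (hE : S_EXIT) (hC : S_CONV) (hL : COS L) (hCL : C ∈ L) (hC0 : ∀ i, C i ≠ 0)
    (hu : u ∈ adm L C) (hw : w ∈ adm L C) (M : Type) [AddCommGroup M] (k : ℕ) :
    Ex M {l | l ∈ XX L C u w ∧ lf l ≠ [] ∧ (Finset.univ.filter fun i => u i < w i) ∉ lf l} k := by
  apply cluster ?_ lf (fun φ => φ.length)
  · intro l hl m hm hlm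
    have h1 := lf_sub (D_ne_zero hlm).1
    rcases Nat.lt_or_ge (lf m).length (lf l).length with h2 | h2
    · exact Or.inr h2
    · exact Or.inl (h1.eq_of_length_le h2)
  · intro φ
    set B : Set (List (Finset ι ⊕ (ι → ℕ))) := {l | l ∈ {l | l ∈ XX L C u w ∧ lf l ≠ [] ∧
      (Finset.univ.filter fun i => u i < w i) ∉ lf l} ∧ lf l = φ} with hB
    by_cases hne : B = ∅
    · rw [hne]
      exact ex_empty k
    · obtain ⟨l₀, ⟨h1, h2, h3⟩, h4⟩ := Set.nonempty_iff_ne_empty.2 hne
      rw [h4] at h2 h3
      obtain ⟨Q, hQ⟩ : ∃ Q, φ.getLast? = some Q := by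
        rw [← Option.isSome_iff_exists]
        simpa using h2
      obtain ⟨φ', rfl⟩ : ∃ φ', φ = φ' ++ [Q] := by
        rw [List.getLast?_eq_some_iff] at hQ
        exact hQ
      have hchn : φ' ++ [Q] ∈ Chn {Q | Q.Nonempty ∧ zro (xs C u) Q ∈ L} := by
        obtain ⟨ψ, τ, rfl, _, h5, _⟩ := h1
        rw [lf_hyb] at h4
        rwa [h4] at h5
      have hQS : Q ⊆ Finset.univ.filter fun i => u i < w i := XX_sub h1 (by rw [h4]; simp)
      have hQne : Q ≠ Finset.univ.filter fun i => u i < w i := by
        intro h5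
        apply h3
        rw [← h5]
        simp
      obtain ⟨i, hi1, hi2⟩ := Finset.exists_of_ssubset (lt_of_le_of_ne hQS hQne)
      have hle : ∀ R ∈ φ' ++ [Q], R ⊆ Q := by
        intro R hR
        rcases List.mem_append.1 hR with h5 | h5
        · have := (List.pairwise_append.1 hchn.1).2.2 R h5 Q (by simp)
          exact this.subset
        · simp at h5
          rw [h5]
      have hset : B = (fun τ => hyb (φ' ++ [Q]) τ) ''
          {τ | τ ∈ MM (adm L C) u w ∧ u + ind Q ≤ τ.headD w} := by
        ext l
        constructor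
        · rintro ⟨⟨⟨ψ, τ, rfl, h5, h6, h7⟩, _, _⟩, h8⟩
          rw [lf_hyb] at h8
          subst h8
          exact ⟨τ, ⟨h5, h7 Q (by simp)⟩, rfl⟩
        · rintro ⟨τ, ⟨h5, h6⟩, rfl⟩
          refine ⟨⟨⟨_, τ, rfl, h5, hchn, ?_⟩, ?_, ?_⟩, lf_hyb _ _⟩
          · intro R hR
            refine le_trans ?_ h6
            intro j
            have := hle R hR
            simp only [Pi.add_apply, ind]
            split_ifs with h7 h8
            · rfl
            · exact absurd (this h7) h8
            · omega
            · rfl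
          · rw [lf_hyb]
            simp
          · rw [lf_hyb]
            exact h3
      rw [hset]
      refine transport_all (fun τ => hyb (φ' ++ [Q]) τ) ?_ (e := (-1) ^ (φ' ++ [Q]).length)
        (sign_sq _) (s := (φ' ++ [Q]).length) ?_ ?_ ?_ k
      · intro a _ b _ hab
        have := congrArg rt hab
        simpa only [rt_hyb] using this
      · intro l _
        rw [length_hyb, add_comm]
      · intro l hl m _
        exact D_hyb_left (chn_nodup hchn) (mm_nodup hl.1)
      · intro j
        refine hE ι L hL C hCL hC0 u w hu hw Q ?_ ?_ ⟨i, hi2, ?_⟩ M j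
        · exact (hchn.2 Q (by simp)).1
        · exact (hchn.2 Q (by simp)).2
        · simpa using hi1
  · intro l₁ _ l₂ _ h
    exact (lf_sub h).length_le
  · rintro l₁ l₂ l₃ ⟨h1, h2, h3⟩ ⟨h4, h5, h6⟩ h12 h23
    refine ⟨conv_XX hC l₁ l₂ l₃ h1 h4 h12 h23, ?_, ?_⟩
    · intro h7
      have := lf_sub h12
      rw [h7] at this
      exact h2 (List.sublist_nil.1 this)
    · intro h7
      exact h6 ((lf_sub h23).subset h7)

/-- The walks that start with the reflection in the face with zero set the support of `w - u`. -/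
theorem ex_T (hL : COS L) (hu : u ∈ adm L C) (huw : u ≤ w) (hne : u ≠ w)
    (hS : zro (xs C u) (Finset.univ.filter fun i => u i < w i) ∈ L)
    (ih : ∀ u' : ι → ℕ, u < u' → u' ∈ adm L C → u' ≤ w → u' ≠ w →
      ∃ κ : ℕ, ∀ (M : Type) [AddCommGroup M] (k : ℕ), k ≠ κ → Ex M (MM (adm L C) u' w) k) :
    ∃ κ : ℕ, ∀ (M : Type) [AddCommGroup M] (k : ℕ), k ≠ κ →
      Ex M {τ | τ ∈ MM (adm L C) u w ∧
        u + ind (Finset.univ.filter fun i => u i < w i) ≤ τ.headD w} k := by
  set S := Finset.univ.filter fun i => u i < w i with hSd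
  have hmS : ∀ i, i ∈ S ↔ u i < w i := by
    intro i
    simp [hSd]
  set v := u + ind S with hv
  have hvS : ∀ i, i ∈ S → v i = u i + 1 := by
    intro i hi
    simp [hv, ind, hi]
  have hvS' : ∀ i, i ∉ S → v i = u i := by
    intro i hi
    simp [hv, ind, hi]
  obtain ⟨i₀, hi₀⟩ : ∃ i, i ∈ S := by
    obtain ⟨i, hi⟩ := Function.ne_iff.1 hne
    refine ⟨i, (hmS i).2 ?_⟩
    have : u i ≤ w i := huw i
    omega
  have hstp : stp u v := by
    refine ⟨?_, ?_⟩
    · intro h
      have := congrFun h i₀
      rw [hvS i₀ hi₀] at this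
      omega
    · intro i
      by_cases hi : i ∈ S
      · rw [hvS i hi]
        omega
      · rw [hvS' i hi]
        omega
  have hvw : v ≤ w := by
    intro i
    by_cases hi : i ∈ S
    · rw [hvS i hi]
      exact (hmS i).1 hi
    · rw [hvS' i hi]
      exact huw i
  have hvA : v ∈ adm L C := by
    have h1 := flp_zro_mem hL hu hS
    change xs C v ∈ L
    rw [xs_flp S hvS hvS']
    exact h1
  have hwS : ∀ i, i ∉ S → w i = u i := by
    intro i hi
    have h1 : u i ≤ w i := huw i
    have h2 : ¬ u i < w i := fun h => hi ((hmS i).2 h)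
    omega
  by_cases hvw' : v = w
  · refine ⟨0, fun M _ k hk => ?_⟩
    have hset : {τ | τ ∈ MM (adm L C) u w ∧ v ≤ τ.headD w} = {[]} := by
      ext τ
      constructor
      · rintro ⟨h1, h2⟩
        cases τ with
        | nil => rfl
        | cons a τ =>
          exfalso
          have h3 := (List.pairwise_cons.1 (mm_sorted h1)).2
          rw [List.cons_append] at h3
          have h4 : a < w := List.rel_of_pairwise_cons h3 (by simp)
          simp only [List.headD_cons] at h2
          rw [hvw'] at h2
          exact absurd (lt_of_le_of_lt h2 h4) (lt_irrefl _)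
      · rintro rfl
        refine ⟨⟨?_, by simp⟩, ?_⟩
        · simp only [List.nil_append, List.isChain_cons_cons, List.isChain_singleton, and_true]
          rw [← hvw']
          exact hstp
        · simpa using hvw
    rw [hset]
    exact ex_singleton [] (by simpa using hk)
  · obtain ⟨κ, hκ⟩ := ih v hstp.lt hvA hvw hvw'
    refine ⟨κ + 1, fun M _ k hk => ?_⟩
    have hset : {τ | τ ∈ MM (adm L C) u w ∧ v ≤ τ.headD w} =
        (fun τ => v :: τ) '' MM (adm L C) v w := by
      ext τ
      constructor
      · rintro ⟨h1, h2⟩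
        cases τ with
        | nil =>
          exfalso
          have h3 := mm_stp_head h1
          simp only [List.headD_nil] at h3 h2
          apply hvw'
          funext i
          have h4 := h3.2 i
          have h5 : v i ≤ w i := h2 i
          by_cases hi : i ∈ S
          · rw [hvS i hi] at h5 ⊢
            omega
          · rw [hvS' i hi, hwS i hi]
        | cons a τ =>
          have h3 := mm_stp_head h1
          simp only [List.headD_cons] at h3 h2
          have h4 : a ≤ w := by
            have := mm_head_le_w h1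
            simpa using this
          have ha : a = v := by
            funext i
            have h5 := h3.2 i
            have h6 : v i ≤ a i := h2 i
            have h7 : a i ≤ w i := h4 i
            by_cases hi : i ∈ S
            · rw [hvS i hi] at h6 ⊢
              omega
            · have h8 := hwS i hi
              rw [hvS' i hi] at h6 ⊢
              omega
          subst ha
          refine ⟨τ, ⟨?_, fun x hx => h1.2 x (by simp [hx])⟩, rfl⟩
          have h5 := h1.1
          rw [List.cons_append, List.isChain_cons_cons] at h5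
          exact h5.2
      · rintro ⟨τ, h1, rfl⟩
        refine ⟨⟨?_, ?_⟩, by simp⟩
        · rw [List.cons_append, List.isChain_cons_cons]
          exact ⟨hstp, h1.1⟩
        · intro x hx
          rcases List.mem_cons.1 hx with rfl | hx
          · exact hvA
          · exact h1.2 x hx
    rw [hset]
    refine transport_ne (fun τ => v :: τ) ?_ (e := -1) (by norm_num) (s := 1) ?_ ?_
      (fun j hj => hκ M j hj) k hk
    · intro a _ b _ hab
      simpa using hab
    · intro l _
      simp
    · intro l hl m _
      have h1 : ([v] ++ l).Nodup := by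
        have h2 := mm_sorted hl
        rw [← List.cons_append] at h2
        have h3 := (List.pairwise_append.1 h2).1
        exact h3.imp fun hab => ne_of_lt hab
      have := D_append_left [v] l m h1
      simpa using this

end van

theorem van (hG : S_GAM) (hI : S_INT) (hC : S_CONV) (hE : S_EXIT) : S_VAN := by
  intro ι _ _ L hL C hCL hC0 u w hu hw huw hne
  obtain ⟨n, hn⟩ : ∃ n, n = ∑ i, (w i - u i) := ⟨_, rfl⟩
  induction n using Nat.strong_induction_on generalizing u with
  | _ n ih =>
    set S := Finset.univ.filter fun i => u i < w i with hSd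
    have hmS : ∀ i, i ∈ S ↔ u i < w i := by
      intro i
      simp [hSd]
    have hSne : S.Nonempty := by
      obtain ⟨i, hi⟩ := Function.ne_iff.1 hne
      refine ⟨i, (hmS i).2 ?_⟩
      have : u i ≤ w i := huw i
      omega
    have ih' : ∀ u' : ι → ℕ, u < u' → u' ∈ adm L C → u' ≤ w → u' ≠ w →
        ∃ κ : ℕ, ∀ (M : Type) [AddCommGroup M] (k : ℕ), k ≠ κ → Ex M (MM (adm L C) u' w) k := by
      intro u' h1 h2 h3 h4
      refine ih _ ?_ u' h2 h3 h4 rfl
      rw [hn]
      apply Finset.sum_lt_sum
      · intro i _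
        have : u i ≤ u' i := h1.le i
        omega
      · obtain ⟨i, hi⟩ := Function.ne_iff.1 h1.ne
        refine ⟨i, Finset.mem_univ _, ?_⟩
        have h5 : u i ≤ u' i := h1.le i
        have h6 : u' i ≤ w i := h3 i
        omega
    -- the part with faces
    have hBB : ∃ K : ℕ, ∀ (M : Type) [AddCommGroup M] (k : ℕ), k ≠ K →
        Ex M {l | l ∈ XX L C u w ∧ lf l ≠ []} k := by
      have hB2 : ∃ K : ℕ, ∀ (M : Type) [AddCommGroup M] (k : ℕ), k ≠ K →
          Ex M {l | l ∈ XX L C u w ∧ S ∈ lf l} k := by
        by_cases hS : zro (xs C u) S ∈ L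
        · obtain ⟨κ, hκ⟩ := ex_T hL hu huw hne hS ih'
          obtain ⟨n', hn'⟩ := hI ι L hL (xs C u) hu (xs_ne hC0 u) ∅ S (by rw [zro_empty]; exact hu)
            hS (Finset.empty_ssubset.2 hSne)
          refine ⟨κ + n', fun M _ k hk => ?_⟩
          have h1 := hn' (ι → ℕ) {τ | τ ∈ MM (adm L C) u w ∧ u + ind S ≤ τ.headD w} ?_ ?_ M κ
            (fun j hj => hκ M j hj) k hk
          · convert h1 using 1
            ext l
            constructor
            · rintro ⟨h2, h3⟩
              have hsub := fun Q hQ => XX_sub h2 (Q := Q) hQ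
              obtain ⟨φ, τ, rfl, h4, h5, h6⟩ := h2
              rw [lf_hyb] at h3 hsub
              obtain ⟨a, b, rfl⟩ := List.append_of_mem h3
              have hp := List.pairwise_append.1 h5.1
              have hb : b = [] := by
                rcases b with _ | ⟨c, b⟩
                · rfl
                · exfalso
                  have h7 : S ⊂ c := List.rel_of_pairwise_cons hp.2.1 (by simp)
                  have h8 : c ⊆ S := hsub c (by simp)
                  exact absurd (lt_of_lt_of_le h7 h8) (lt_irrefl _)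
              subst hb
              refine ⟨a, ⟨hp.1, ?_⟩, τ, ⟨h4, h6 S (by simp)⟩, ?_⟩
              · intro Q hQ
                have h7 := h5.2 Q (by simp [hQ])
                exact ⟨Finset.empty_ssubset.2 h7.1, hp.2.2 Q hQ S (by simp), h7.2⟩
              · simp [hyb]
            · rintro ⟨a, ⟨h2, h3⟩, τ, ⟨h4, h5⟩, rfl⟩
              have he : a.map Sum.inl ++ Sum.inl S :: τ.map Sum.inr = hyb (a ++ [S]) τ := by
                simp [hyb]
              rw [he]
              refine ⟨⟨a ++ [S], τ, rfl, h4, ⟨?_, ?_⟩, ?_⟩, ?_⟩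
              · rw [List.pairwise_append]
                refine ⟨h2, by simp, ?_⟩
                intro Q hQ R hR
                simp at hR
                rw [hR]
                exact (h3 Q hQ).2.1
              · intro Q hQ
                rcases List.mem_append.1 hQ with h6 | h6
                · exact ⟨Finset.empty_ssubset.1 (h3 Q h6).1, (h3 Q h6).2.2⟩
                · simp at h6
                  rw [h6]
                  exact ⟨hSne, hS⟩
              · intro Q hQ
                refine le_trans ?_ h5
                have h7 : Q ⊆ S := by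
                  rcases List.mem_append.1 hQ with h6 | h6
                  · exact (h3 Q h6).2.1.subset
                  · simp at h6
                    rw [h6]
                intro j
                simp only [Pi.add_apply, ind]
                split_ifs with h8 h9
                · rfl
                · exact absurd (h7 h8) h9
                · omega
                · rfl
              · rw [lf_hyb]
                simp
          · rintro l₁ l₂ l₃ ⟨h1, h2⟩ ⟨h3, h4⟩ h12 h23
            exact ⟨hC ι _ u w l₁ l₂ l₃ h1 h3 h12 h23, h4.trans (mm_head_mono h3 h23)⟩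
          · rintro τ ⟨h1, _⟩
            exact mm_nodup h1
        · refine ⟨0, fun M _ k _ => ?_⟩
          have hset : {l | l ∈ XX L C u w ∧ S ∈ lf l} = (∅ : Set (List (Finset ι ⊕ (ι → ℕ)))) := by
            ext l
            constructor
            · rintro ⟨⟨φ, τ, rfl, _, h5, _⟩, h3⟩
              rw [lf_hyb] at h3
              exact absurd (h5.2 S h3).2 hS
            · rintro ⟨⟩
          rw [hset]
          exact ex_empty k
      obtain ⟨K, hK⟩ := hB2
      refine ⟨K, fun M _ k hk => ?_⟩
      refine L1 (A := {l | l ∈ XX L C u w ∧ lf l ≠ [] ∧ S ∉ lf l})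
        (B := {l | l ∈ XX L C u w ∧ S ∈ lf l}) ?_ (ex_B1 hE hC hL hCL hC0 hu hw M k) (hK M k hk)
      refine ⟨?_, ?_, ?_, ?_⟩
      · rintro l₁ l₂ l₃ ⟨h1, h2⟩ ⟨h3, _⟩ h12 h23
        refine ⟨conv_XX hC l₁ l₂ l₃ h1 h3 h12 h23, ?_⟩
        intro h7
        have := lf_sub h12
        rw [h7] at this
        exact h2 (List.sublist_nil.1 this)
      · ext l
        constructor
        · rintro ⟨h1, h2⟩
          by_cases h3 : S ∈ lf l
          · exact Or.inr ⟨h1, h3⟩
          · exact Or.inl ⟨h1, h2, h3⟩
        · rintro (⟨h1, h2, _⟩ | ⟨h1, h2⟩)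
          · exact ⟨h1, h2⟩
          · exact ⟨h1, List.ne_nil_of_mem h2⟩
      · rintro l ⟨_, _, h1⟩ ⟨_, h2⟩
        exact h1 h2
      · rintro a ⟨_, _, h1⟩ b ⟨_, h2⟩
        by_contra h3
        exact h1 ((lf_sub (D_ne_zero h3).1).subset h2)
    obtain ⟨K, hK⟩ := hBB
    refine ⟨K - 1, fun M _ k hk => ?_⟩
    have hAA : Ex M {l | l ∈ XX L C u w ∧ lf l = []} k := by
      refine L2 (S := XX L C u w) (B := {l | l ∈ XX L C u w ∧ lf l ≠ []}) ?_
        (ex_XX hG hC hL hC0 hu hw M k) (hK M (k + 1) (by omega))
      refine ⟨conv_XX hC, ?_, ?_, ?_⟩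
      · ext l
        constructor
        · intro h1
          by_cases h3 : lf l = []
          · exact Or.inl ⟨h1, h3⟩
          · exact Or.inr ⟨h1, h3⟩
        · rintro (⟨h1, _⟩ | ⟨h1, _⟩)
          · exact h1
          · exact h1
      · rintro l ⟨_, h1⟩ ⟨_, h2⟩
        exact h2 h1
      · rintro a ⟨_, h1⟩ b ⟨_, h2⟩
        by_contra h3
        have h4 := lf_sub (D_ne_zero h3).1
        rw [h1] at h4
        exact h2 (List.sublist_nil.1 h4)
    have hset : {l | l ∈ XX L C u w ∧ lf l = []} =
        (fun τ => hyb ([] : List (Finset ι)) τ) '' MM (adm L C) u w := by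
      ext l
      constructor
      · rintro ⟨⟨φ, τ, rfl, h1, _, _⟩, h2⟩
        rw [lf_hyb] at h2
        subst h2
        exact ⟨τ, h1, rfl⟩
      · rintro ⟨τ, h1, rfl⟩
        exact ⟨⟨[], τ, rfl, h1, ⟨List.Pairwise.nil, by simp⟩, by simp⟩, lf_hyb _ _⟩
    rw [hset] at hAA
    have h1 := transport (M := M) (S := MM (adm L C) u w)
      (fun τ => hyb ([] : List (Finset ι)) τ) (e := 1) (s := 0) (k := k) ?_ (by norm_num) ?_ ?_
    · exact h1.1 hAA
    · intro a _ b _ hab
      have := congrArg rt hab
      simpa only [rt_hyb] using this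
    · intro l _
      rw [length_hyb]
      simp
    · intro l hl m _
      have := D_hyb_left (α := Finset ι) (φ := []) (σ := m) List.nodup_nil (mm_nodup hl)
      simpa using this

end Pool.Agent.P8H39.MH
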